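import Pool.Agent.Q173.KS.Stm

/-!
# Project KS: stars (lemma job STAR)
-/

set_option autoImplicit false

namespace Pool.Agent.Q130.KS

open Pool.Agent.Q173.KS Finset

lemma mem_starL {α : Type} (l : α) (xs : List α) : ∀ o ∈ Q173.KS.starL l xs, o.a = l ∧ o.b ∈ xs := by
  induction xs with
  | nil => intro o ho; simp [Q173.KS.starL] at ho
  | cons x xs ih =>
    intro o ho
    rw [Q173.KS.starL, List.mem_append, List.mem_singleton] at ho
    rcases ho with ho | rfl
    · obtain ⟨h1, h2⟩ := ih o ho
      exact ⟨h1, List.mem_cons_of_mem _ h2⟩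
    · exact ⟨rfl, List.mem_cons_self⟩

theorem star : S_STAR := by
  intro α _ l xs
  induction xs with
  | nil =>
    intro _ z hz
    have hz' : z = l := by simpa using hz
    simp [Q173.KS.starL, hz']
  | cons x xs ih =>
    intro hnd z hz
    have hxl : x ≠ l := by
      rintro rfl
      simp at hnd
    have hxxs : x ∉ xs := by
      intro h
      simp [h] at hnd
    have hnd' : (l :: xs).Nodup := by
      rw [List.nodup_cons] at hnd ⊢
      exact ⟨fun h => hnd.1 (List.mem_cons_of_mem _ h), (List.nodup_cons.1 hnd.2).2⟩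
    have hY : ∀ o ∈ Q173.KS.starL l xs, o.a ∉ ({x} : Set α) ∧ o.b ∉ ({x} : Set α) := by
      intro o ho
      obtain ⟨h1, h2⟩ := mem_starL l xs o ho
      refine ⟨?_, ?_⟩
      · rw [h1]
        exact fun h => hxl (Set.mem_singleton_iff.1 h).symm
      · intro h
        rw [Set.mem_singleton_iff] at h
        exact hxxs (h ▸ h2)
    have hn : (0 : ℝ) < (xs.length : ℝ) + 1 := by positivity
    have hn2 : (0 : ℝ) < (xs.length : ℝ) + 2 := by positivity
    rw [Q173.KS.starL, EP_append]
    have e : (fun σ₁ : Equiv.Perm α => EP [(⟨l, x, 1 / ((xs.length : ℝ) + 2)⟩ : Op α)]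
        (fun σ₂ => if (σ₂ * σ₁) z = l then (1 : ℝ) else 0)) =
        fun σ₁ => (1 - 1 / ((xs.length : ℝ) + 2)) * (if σ₁ z = l then (1 : ℝ) else 0) +
          1 / ((xs.length : ℝ) + 2) * (if σ₁ z = x then (1 : ℝ) else 0) := by
      funext σ₁
      rw [EP_cons, EP_nil, EP_nil]
      have e1 : (Equiv.swap l x (σ₁ z) = l) ↔ (σ₁ z = x) := by
        rw [Equiv.swap_apply_eq_iff, Equiv.swap_apply_left]
      have e2 : ((1 : Equiv.Perm α) * Equiv.swap l x * σ₁) z = Equiv.swap l x (σ₁ z) := by
        rw [one_mul, Equiv.Perm.mul_apply]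
      have e3 : ((1 : Equiv.Perm α) * σ₁) z = σ₁ z := by rw [one_mul]
      simp only [e2, e3, e1]
    rw [e]
    have hlen : ((((x :: xs).length : ℕ) : ℝ)) + 1 = (xs.length : ℝ) + 2 := by
      rw [List.length_cons]
      push_cast
      ring
    rw [hlen]
    by_cases hzx : z = x
    · subst hzx
      refine Eq.trans (EP_congr_fix hY ?_)
        (EP_const (Q173.KS.starL l xs) (1 / ((xs.length : ℝ) + 2)))
      intro σ hσ
      have h1 : σ z = z := hσ z rfl
      rw [h1, if_neg hxl, if_pos rfl]
      ring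
    · have hz' : z ∈ l :: xs := by
        rcases List.mem_cons.1 hz with h | h
        · exact h ▸ List.mem_cons_self
        · rcases List.mem_cons.1 h with h | h
          · exact absurd h hzx
          · exact List.mem_cons_of_mem _ h
      have h2 := ih hnd' z hz'
      have h3 : EP (Q173.KS.starL l xs) (fun σ₁ => (1 - 1 / ((xs.length : ℝ) + 2)) *
          (if σ₁ z = l then (1 : ℝ) else 0) +
          1 / ((xs.length : ℝ) + 2) * (if σ₁ z = x then (1 : ℝ) else 0)) =
          EP (Q173.KS.starL l xs) (fun σ₁ => (1 - 1 / ((xs.length : ℝ) + 2)) *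
          (if σ₁ z = l then (1 : ℝ) else 0)) := by
        refine EP_congr_fix hY ?_
        intro σ hσ
        have h1 : σ x = x := hσ x rfl
        have h4 : σ z ≠ x := fun h => hzx (σ.injective (h.trans h1.symm))
        rw [if_neg h4]
        ring
      rw [h3, EP_mul, h2]
      field_simp
      ring

end Pool.Agent.Q130.KS
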